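import Pool.Agent.H90.STK.Defs

/-!
# Multilinear Kakeya in entropy form: one block

A random point `x` with a random basis `e` of covectors (`d` is the dual basis). Two samples with
the same label `Lam a` and the same world `W` differ by a vector on which the covectors of the other
groups vanish. In one block of digits, the sum of the entropies of the digits given the labels is at
most the entropy of the digits.
-/

set_option autoImplicit false

namespace Pool.MKE

open Finset Real
open Pool.Agent.H49.Ent Pool.Agent.H32.Dense Pool.STK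

variable {Ω S T U κ : Type} [Fintype Ω] {c r : ℕ}

theorem CH_vecc {d : ℕ} {p : Ω → ℝ} (hp : IsLaw p) (X : Ω → Fin d → ℤ) (W : Ω → T) {L : ℝ}
    (h : ∀ ω ω', 0 < p ω → 0 < p ω' → W ω = W ω' → ∀ k, |((X ω k - X ω' k : ℤ) : ℝ)| ≤ L) :
    CH p X W ≤ d * Real.log (2 * L + 1) := by
  have h1 := CH_le_vec hp.nonneg hp.sum_one X W (fun _ => L) h
  rwa [Ex_const hp.sum_one] at h1

/-- The coordinates of the group `a`. -/
def part (g : Fin c → Fin r) (a : Fin r) (X : Ω → Fin c → ℤ) (ω : Ω) (k : Fin c) : ℤ :=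
  if g k = a then X ω k else 0

/-- The coordinates of the other groups. -/
def rest (g : Fin c → Fin r) (a : Fin r) (X : Ω → Fin c → ℤ) (ω : Ω) (k : Fin c) : ℤ :=
  if g k = a then 0 else X ω k

/-- The entropy of a vector is at least the sum over the groups of the entropies given the rest. -/
theorem chain_ge {p : Ω → ℝ} (hp : IsLaw p) (g : Fin c → Fin r) (X : Ω → Fin c → ℤ) (Z : Ω → T) :
    ∑ a, CH p (part g a X) (fun ω => (rest g a X ω, Z ω)) ≤ CH p X Z := by
  classical
  have hp0 := hp.nonneg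
  have key : ∀ s : Finset (Fin r),
      ∑ a ∈ s, CH p (part g a X) (fun ω => (rest g a X ω, Z ω)) ≤
        CH p (fun ω (k : Fin c) => if g k ∈ s then X ω k else 0) Z := by
    intro s
    induction s using Finset.induction_on with
    | empty =>
      rw [Finset.sum_empty]
      exact CH_nonneg hp0 _ _
    | insert a s ha ih =>
      rw [Finset.sum_insert ha]
      have e1 : CH p (fun ω (k : Fin c) => if g k ∈ insert a s then X ω k else 0) Z =
          CH p (fun ω => (part g a X ω, fun k : Fin c => if g k ∈ s then X ω k else 0)) Z := by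
        refine CH_congr hp0 ?_ ?_ (fun _ _ _ _ h => h) (fun _ _ _ _ h => h)
        · intro ω ω' _ _ hh
          simp only [Prod.mk.injEq] at hh
          obtain ⟨h1, h2⟩ := hh
          refine Prod.ext (funext fun k => ?_) (funext fun k => ?_)
          · have h3 := congrFun h1 k
            change (if g k = a then X ω k else 0) = if g k = a then X ω' k else 0
            by_cases hk : g k = a
            · rw [if_pos (Finset.mem_insert.2 (Or.inl hk)),
                if_pos (Finset.mem_insert.2 (Or.inl hk))] at h3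
              rw [if_pos hk, if_pos hk, h3]
            · rw [if_neg hk, if_neg hk]
          · have h3 := congrFun h1 k
            change (if g k ∈ s then X ω k else 0) = if g k ∈ s then X ω' k else 0
            by_cases hk : g k ∈ s
            · rw [if_pos (Finset.mem_insert.2 (Or.inr hk)),
                if_pos (Finset.mem_insert.2 (Or.inr hk))] at h3
              rw [if_pos hk, if_pos hk, h3]
            · rw [if_neg hk, if_neg hk]
        · intro ω ω' _ _ hh
          simp only [Prod.mk.injEq] at hh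
          obtain ⟨⟨h3, h4⟩, h2⟩ := hh
          refine funext fun k => ?_
          have h5 := congrFun h3 k
          have h6 := congrFun h4 k
          unfold part at h5
          change (if g k ∈ insert a s then X ω k else 0) = if g k ∈ insert a s then X ω' k else 0
          by_cases hk : g k = a
          · rw [if_pos hk, if_pos hk] at h5
            rw [h5]
          · by_cases hk2 : g k ∈ s
            · rw [if_pos hk2, if_pos hk2] at h6
              rw [h6]
            · rw [if_neg (by rw [Finset.mem_insert]; tauto), if_neg (by rw [Finset.mem_insert]; tauto)]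
      rw [e1, CH_chain hp0]
      have e2 : CH p (part g a X) (fun ω => (rest g a X ω, Z ω)) ≤
          CH p (part g a X) (fun ω => ((fun k : Fin c => if g k ∈ s then X ω k else 0), Z ω)) := by
        refine CH_mono_cond hp0 fun ω ω' _ _ hh => ?_
        obtain ⟨h1, h2⟩ := Prod.ext_iff.1 hh
        refine Prod.ext (funext fun k => ?_) h2
        have h3 := congrFun h1 k
        unfold rest at h3
        simp only at h3
        change (if g k ∈ s then X ω k else 0) = if g k ∈ s then X ω' k else 0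
        by_cases hk : g k ∈ s
        · have hka : g k ≠ a := fun h => ha (h ▸ hk)
          rw [if_neg hka, if_neg hka] at h3
          rw [if_pos hk, if_pos hk, h3]
        · rw [if_neg hk, if_neg hk]
      linarith
  have h := key univ
  refine h.trans (le_of_eq ?_)
  congr 1
  funext ω k
  rw [if_pos (Finset.mem_univ _)]

/-- The rounded covectors. -/
noncomputable def rdc (m : ℕ) (e : Ω → Fin c → Fin c → ℝ) (ω : Ω) (i j : Fin c) : ℤ :=
  ⌊(2 : ℝ) ^ m * e ω i j⌋

theorem rdc_near (m : ℕ) (e : Ω → Fin c → Fin c → ℝ) (ω : Ω) (i j : Fin c) :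
    |(rdc m e ω i j : ℝ) / 2 ^ m - e ω i j| ≤ 1 / 2 ^ m := by
  have h2 : (0 : ℝ) < 2 ^ m := by positivity
  have h3 := Int.floor_le ((2 : ℝ) ^ m * e ω i j)
  have h4 := Int.lt_floor_add_one ((2 : ℝ) ^ m * e ω i j)
  have h5 : (rdc m e ω i j : ℝ) / 2 ^ m - e ω i j =
      ((rdc m e ω i j : ℝ) - 2 ^ m * e ω i j) / 2 ^ m := by
    field_simp
  rw [h5, abs_div, abs_of_pos h2]
  refine div_le_div_of_nonneg_right ?_ h2.le
  rw [abs_le]
  unfold rdc
  constructor <;> linarith

/-- The coordinates in the rounded basis, in the cube of the first `s` digits. -/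
noncomputable def arg (s m : ℕ) (x : Ω → Fin c → ℝ) (e : Ω → Fin c → Fin c → ℝ) (ω : Ω)
    (i : Fin c) : ℝ :=
  2 ^ (s + m) * ∑ j, (rdc m e ω i j : ℝ) / 2 ^ m * (x ω j - (fl s (x ω) j : ℝ) / 2 ^ s)

theorem floor_two {x y L : ℝ} (h : |x - y| ≤ L) : |((⌊x⌋ - ⌊y⌋ : ℤ) : ℝ)| ≤ L + 1 := by
  have h1 := Int.floor_le x
  have h2 := Int.lt_floor_add_one x
  have h3 := Int.floor_le y
  have h4 := Int.lt_floor_add_one y
  push_cast
  rw [abs_le] at h ⊢
  constructor <;> linarith [h.1, h.2]

theorem floor_same {x y : ℝ} (h : ⌊x⌋ = ⌊y⌋) : |x - y| ≤ 1 := by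
  have h1 := Int.floor_le x
  have h2 := Int.lt_floor_add_one x
  have h3 := Int.floor_le y
  have h4 := Int.lt_floor_add_one y
  rw [h] at h1 h2
  rw [abs_le]
  constructor <;> linarith

theorem fl_same {s : ℕ} {x y : Fin c → ℝ} (h : fl s x = fl s y) (j : Fin c) :
    2 ^ s * |x j - y j| ≤ 1 := by
  have h1 : ⌊(2 : ℝ) ^ s * x j⌋ = ⌊(2 : ℝ) ^ s * y j⌋ := congrFun h j
  have h2 := floor_same h1
  have h3 : (2 : ℝ) ^ s * x j - 2 ^ s * y j = 2 ^ s * (x j - y j) := by ring
  rw [h3, abs_mul, abs_of_pos (by positivity : (0 : ℝ) < 2 ^ s)] at h2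
  exact h2

theorem arg_sub {s m : ℕ} {x : Ω → Fin c → ℝ} {e : Ω → Fin c → Fin c → ℝ} {ω ω' : Ω}
    (h1 : fl s (x ω) = fl s (x ω')) (h2 : rdc m e ω = rdc m e ω') (i : Fin c) :
    arg s m x e ω i - arg s m x e ω' i =
      2 ^ (s + m) * ∑ j, (rdc m e ω i j : ℝ) / 2 ^ m * (x ω j - x ω' j) := by
  unfold arg
  rw [← h1, ← h2, ← mul_sub, ← Finset.sum_sub_distrib]
  congr 1
  refine Finset.sum_congr rfl fun j _ => ?_
  ring

/-- The rounded covector and the covector on a small vector. -/
theorem rd_near {s m : ℕ} {x : Ω → Fin c → ℝ} {e : Ω → Fin c → Fin c → ℝ} {ω ω' : Ω}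
    (h1 : fl s (x ω) = fl s (x ω')) (i : Fin c) :
    |2 ^ (s + m) * ∑ j, (rdc m e ω i j : ℝ) / 2 ^ m * (x ω j - x ω' j) -
      2 ^ (s + m) * ∑ j, e ω i j * (x ω j - x ω' j)| ≤ c := by
  have h2 : (2 : ℝ) ^ (s + m) * ∑ j, (rdc m e ω i j : ℝ) / 2 ^ m * (x ω j - x ω' j) -
      2 ^ (s + m) * ∑ j, e ω i j * (x ω j - x ω' j) =
      ∑ j, (2 ^ m * ((rdc m e ω i j : ℝ) / 2 ^ m - e ω i j)) * (2 ^ s * (x ω j - x ω' j)) := by
    rw [← mul_sub, ← Finset.sum_sub_distrib, Finset.mul_sum]
    refine Finset.sum_congr rfl fun j _ => ?_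
    rw [pow_add]
    ring
  rw [h2]
  refine (Finset.abs_sum_le_sum_abs _ _).trans ?_
  calc ∑ j, |(2 ^ m * ((rdc m e ω i j : ℝ) / 2 ^ m - e ω i j)) * (2 ^ s * (x ω j - x ω' j))| ≤
      ∑ _j : Fin c, (1 : ℝ) := by
        refine Finset.sum_le_sum fun j _ => ?_
        rw [abs_mul, abs_mul, abs_mul, abs_of_pos (by positivity : (0 : ℝ) < 2 ^ m),
          abs_of_pos (by positivity : (0 : ℝ) < 2 ^ s)]
        have h3 := rdc_near m e ω i j
        have h4 := fl_same h1 j
        have h5 : (2 : ℝ) ^ m * |(rdc m e ω i j : ℝ) / 2 ^ m - e ω i j| ≤ 1 := by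
          calc (2 : ℝ) ^ m * |(rdc m e ω i j : ℝ) / 2 ^ m - e ω i j| ≤ 2 ^ m * (1 / 2 ^ m) :=
                mul_le_mul_of_nonneg_left h3 (by positivity)
            _ = 1 := by field_simp
        calc _ ≤ (1 : ℝ) * 1 := mul_le_mul h5 h4 (by positivity) zero_le_one
          _ = 1 := one_mul _
    _ = c := by simp

/-- The loss of one block. -/
noncomputable def loss (c r : ℕ) (K B : ℝ) : ℝ :=
  c * Real.log (2 * (c * (K + 1) + 1) + 1) +
    r * (c * Real.log (2 * (c * (c + 1) + 1) + 1) + c * Real.log (2 * (B + c + 1) + 1))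

/-- **One block.** -/
theorem block {p : Ω → ℝ} (hp : IsLaw p) {x : Ω → Fin c → ℝ} {e d : Ω → Fin c → Fin c → ℝ}
    {K B : ℝ} {R : ℕ} (hB : 0 ≤ B)
    (hinv : ∀ ω, 0 < p ω → ∀ (v : Fin c → ℝ) (j : Fin c),
      v j = ∑ i, d ω i j * ∑ k, e ω i k * v k)
    (hd : ∀ ω, 0 < p ω → ∀ i j, |d ω i j| ≤ 1) (he : ∀ ω, 0 < p ω → ∀ i j, |e ω i j| ≤ K)
    (g : Fin c → Fin r) {Λ : Fin r → Type} (Lam : ∀ a, Ω → Λ a) (W : Ω → κ)
    (hl : ∀ a ω ω', 0 < p ω → 0 < p ω' → Lam a ω = Lam a ω' → W ω = W ω' → ∀ k, g k ≠ a →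
      |∑ j, e ω k j * (x ω j - x ω' j)| ≤ B / 2 ^ R)
    {s m : ℕ} (hs : s + m ≤ R) :
    ∑ a, CH p (fun ω => fl (s + m) (x ω))
        (fun ω => ((fl s (x ω), rdc m e ω), (Lam a ω, W ω))) ≤
      CH p (fun ω => fl (s + m) (x ω)) (fun ω => ((fl s (x ω), rdc m e ω), W ω)) +
        loss c r K B := by
  have hp0 := hp.nonneg
  obtain ⟨Z, hZ⟩ : ∃ Z : Ω → ((Fin c → ℤ) × (Fin c → Fin c → ℤ)) × κ,
    Z = fun ω => ((fl s (x ω), rdc m e ω), W ω) := ⟨_, rfl⟩
  obtain ⟨X, hX⟩ : ∃ X : Ω → Fin c → ℤ, X = fun ω => fl (s + m) (x ω) := ⟨_, rfl⟩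
  obtain ⟨Y, hY⟩ : ∃ Y : Ω → Fin c → ℤ, Y = fun ω i => ⌊arg s m x e ω i⌋ := ⟨_, rfl⟩
  rw [← hZ, ← hX]
  have hZ1 : ∀ {ω ω' : Ω}, Z ω = Z ω' → fl s (x ω) = fl s (x ω') ∧ rdc m e ω = rdc m e ω' ∧
      W ω = W ω' := by
    intro ω ω' h
    rw [hZ] at h
    simp only [Prod.mk.injEq] at h
    exact ⟨h.1.1, h.1.2, h.2⟩
  -- the coordinates are near functions of the digits
  have a1 : CH p Y (fun ω => (X ω, Z ω)) ≤ c * Real.log (2 * (c * (K + 1) + 1) + 1) := by
    refine CH_vecc hp _ _ fun ω ω' h0 h0' h k => ?_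
    obtain ⟨h1, h2⟩ := Prod.ext_iff.1 h
    obtain ⟨h3, h4, h5⟩ := hZ1 h2
    rw [hY]
    refine floor_two ?_
    rw [arg_sub h3 h4]
    have h6 : fl (s + m) (x ω) = fl (s + m) (x ω') := by
      rw [hX] at h1
      exact h1
    rw [Finset.mul_sum]
    refine (Finset.abs_sum_le_sum_abs _ _).trans ?_
    calc ∑ j, |(2 : ℝ) ^ (s + m) * ((rdc m e ω k j : ℝ) / 2 ^ m * (x ω j - x ω' j))| ≤
        ∑ _j : Fin c, (K + 1) := by
          refine Finset.sum_le_sum fun j _ => ?_
          have h7 := fl_same h6 j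
          have h8 := rdc_near m e ω k j
          have h9 := he ω h0 k j
          have h10 : (1 : ℝ) / 2 ^ m ≤ 1 := by
            rw [div_le_one (by positivity)]
            exact one_le_pow₀ (by norm_num)
          have h11 : |(rdc m e ω k j : ℝ) / 2 ^ m| ≤ K + 1 := by
            have := abs_sub_abs_le_abs_sub ((rdc m e ω k j : ℝ) / 2 ^ m) (e ω k j)
            linarith
          rw [abs_mul, abs_mul, abs_of_pos (by positivity : (0 : ℝ) < 2 ^ (s + m))]
          calc (2 : ℝ) ^ (s + m) * (|(rdc m e ω k j : ℝ) / 2 ^ m| * |x ω j - x ω' j|) =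
              |(rdc m e ω k j : ℝ) / 2 ^ m| * (2 ^ (s + m) * |x ω j - x ω' j|) := by ring
            _ ≤ (K + 1) * 1 := mul_le_mul h11 h7 (by positivity)
                ((abs_nonneg _).trans h11)
            _ = K + 1 := mul_one _
      _ = c * (K + 1) := by
          rw [Finset.sum_const, Finset.card_univ, Fintype.card_fin, nsmul_eq_mul]
  -- the digits are near functions of the coordinates
  have a2 : ∀ a, CH p X (fun ω => (Y ω, (Z ω, Lam a ω))) ≤
      c * Real.log (2 * (c * (c + 1) + 1) + 1) := by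
    intro a
    refine CH_vecc hp _ _ fun ω ω' h0 h0' h k => ?_
    rw [Prod.mk.injEq, Prod.mk.injEq] at h
    obtain ⟨h1, h2, -⟩ := h
    obtain ⟨h3, h4, h5⟩ := hZ1 h2
    rw [hX]
    refine floor_two ?_
    have e1 : (2 : ℝ) ^ (s + m) * x ω k - 2 ^ (s + m) * x ω' k =
        ∑ i, d ω i k * (2 ^ (s + m) * ∑ j, e ω i j * (x ω j - x ω' j)) := by
      have := hinv ω h0 (fun j => x ω j - x ω' j) k
      rw [← mul_sub, this, Finset.mul_sum]
      refine Finset.sum_congr rfl fun i _ => ?_
      ring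
    rw [e1]
    refine (Finset.abs_sum_le_sum_abs _ _).trans ?_
    calc ∑ i, |d ω i k * (2 ^ (s + m) * ∑ j, e ω i j * (x ω j - x ω' j))| ≤
        ∑ _i : Fin c, ((c : ℝ) + 1) := by
          refine Finset.sum_le_sum fun i _ => ?_
          rw [abs_mul]
          have h6 : |arg s m x e ω i - arg s m x e ω' i| ≤ 1 := by
            refine floor_same ?_
            have := congrFun h1 i
            rw [hY] at this
            exact this
          rw [arg_sub h3 h4] at h6
          have h7 := rd_near (m := m) (e := e) h3 i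
          have h8 : |2 ^ (s + m) * ∑ j, e ω i j * (x ω j - x ω' j)| ≤ c + 1 := by
            have := abs_sub_abs_le_abs_sub (2 ^ (s + m) * ∑ j, e ω i j * (x ω j - x ω' j))
              (2 ^ (s + m) * ∑ j, (rdc m e ω i j : ℝ) / 2 ^ m * (x ω j - x ω' j))
            rw [abs_sub_comm] at h7
            linarith
          calc |d ω i k| * |2 ^ (s + m) * ∑ j, e ω i j * (x ω j - x ω' j)| ≤ 1 * (c + 1) :=
                mul_le_mul (hd ω h0 i k) h8 (abs_nonneg _) zero_le_one
            _ = c + 1 := one_mul _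
      _ = c * (c + 1) := by
          rw [Finset.sum_const, Finset.card_univ, Fintype.card_fin, nsmul_eq_mul]
  -- the other coordinates are near functions of the label
  have a3 : ∀ a, CH p (rest g a Y) (fun ω => (Z ω, Lam a ω)) ≤
      c * Real.log (2 * (B + c + 1) + 1) := by
    intro a
    refine CH_vecc hp _ _ fun ω ω' h0 h0' h k => ?_
    simp only [Prod.mk.injEq] at h
    obtain ⟨h1, h2⟩ := h
    obtain ⟨h3, h4, h5⟩ := hZ1 h1
    unfold rest
    by_cases hk : g k = a
    · rw [if_pos hk, if_pos hk, sub_zero, Int.cast_zero, abs_zero]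
      positivity
    · rw [if_neg hk, if_neg hk, hY]
      have e1 : B + c + 1 = (B + c) + 1 := rfl
      rw [e1]
      refine floor_two ?_
      rw [arg_sub h3 h4]
      have h7 := rd_near (m := m) (e := e) h3 k
      have h8 : |2 ^ (s + m) * ∑ j, e ω k j * (x ω j - x ω' j)| ≤ B := by
        rw [abs_mul, abs_of_pos (by positivity : (0 : ℝ) < 2 ^ (s + m))]
        have h9 := hl a ω ω' h0 h0' h2 h5 k hk
        calc (2 : ℝ) ^ (s + m) * |∑ j, e ω k j * (x ω j - x ω' j)| ≤ 2 ^ R * (B / 2 ^ R) :=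
              mul_le_mul (pow_le_pow_right₀ (by norm_num) hs) h9 (abs_nonneg _) (by positivity)
          _ = B := by field_simp
      have := abs_sub_abs_le_abs_sub
        (2 ^ (s + m) * ∑ j, (rdc m e ω k j : ℝ) / 2 ^ m * (x ω j - x ω' j))
        (2 ^ (s + m) * ∑ j, e ω k j * (x ω j - x ω' j))
      linarith
  -- conclusion
  have b1 : CH p Y Z ≤ CH p X Z + c * Real.log (2 * (c * (K + 1) + 1) + 1) := by
    have := CH_le_add hp0 Y X Z
    linarith
  have b2 := chain_ge hp g Y Z
  have b3 : ∀ a, CH p X (fun ω => ((fl s (x ω), rdc m e ω), (Lam a ω, W ω))) ≤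
      CH p (part g a Y) (fun ω => (rest g a Y ω, Z ω)) +
        (c * Real.log (2 * (c * (c + 1) + 1) + 1) + c * Real.log (2 * (B + c + 1) + 1)) := by
    intro a
    have c0 : CH p X (fun ω => ((fl s (x ω), rdc m e ω), (Lam a ω, W ω))) =
        CH p X (fun ω => (Z ω, Lam a ω)) := by
      refine CH_congr hp0 (fun _ _ _ _ h => (Prod.ext_iff.1 h).1)
        (fun _ _ _ _ h => (Prod.ext_iff.1 h).1) ?_ ?_
      · intro ω ω' _ _ hh
        rw [hZ]
        simp only [Prod.mk.injEq] at hh ⊢
        tauto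
      · intro ω ω' _ _ hh
        rw [hZ] at hh
        simp only [Prod.mk.injEq] at hh ⊢
        tauto
    have c1 := CH_le_add hp0 X (rest g a Y) (fun ω => (Z ω, Lam a ω))
    have c2 := CH_le_add hp0 X (part g a Y) (fun ω => (rest g a Y ω, (Z ω, Lam a ω)))
    have c3 : CH p (part g a Y) (fun ω => (rest g a Y ω, (Z ω, Lam a ω))) ≤
        CH p (part g a Y) (fun ω => (rest g a Y ω, Z ω)) := by
      refine CH_mono_cond hp0 fun ω ω' _ _ hh => ?_
      simp only [Prod.mk.injEq] at hh ⊢
      tauto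
    have c4 : CH p X (fun ω => (part g a Y ω, (rest g a Y ω, (Z ω, Lam a ω)))) ≤
        CH p X (fun ω => (Y ω, (Z ω, Lam a ω))) := by
      refine CH_mono_cond hp0 fun ω ω' _ _ hh => ?_
      simp only [Prod.mk.injEq] at hh ⊢
      refine ⟨funext fun k => ?_, hh.2.2⟩
      have h5 := congrFun hh.1 k
      have h6 := congrFun hh.2.1 k
      unfold part at h5
      unfold rest at h6
      by_cases hk : g k = a
      · rwa [if_pos hk, if_pos hk] at h5
      · rwa [if_neg hk, if_neg hk] at h6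
    have c5 := a2 a
    have c6 := a3 a
    linarith
  have b4 := Finset.sum_le_sum fun a (_ : a ∈ (univ : Finset (Fin r))) => b3 a
  rw [Finset.sum_add_distrib, Finset.sum_const, Finset.card_univ, Fintype.card_fin,
    nsmul_eq_mul] at b4
  unfold loss
  linarith

end Pool.MKE
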