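import Pool.Agent.H99.JM.MKb

/-!
# Multilinear Kakeya in entropy form

`mk`: a random point `x` with a random basis of covectors `e` (dual basis `d`), and labels
`Lam a`: two samples with the same label `Lam a` (and world `W`) differ by a vector on which the
covectors of the other groups vanish. Then the sum over `a` of the entropies of `x` given the labels
is at most the entropy of `x`, up to the entropy of the first `m` digits of the basis and one
constant for each block of length `m`. No hypothesis on the coupling of the labels.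

`mk_full`: if `x` is full in each flat (of dimension the size of the group), `x` is full.
-/

set_option autoImplicit false

namespace Pool.MKE

open Finset Real
open Pool.Agent.H49.Ent Pool.Agent.H32.Dense Pool.STK

variable {Ω S T U κ : Type} [Fintype Ω] {c r : ℕ}

/-- The first digits are functions of more digits. -/
theorem fl_det {s s' : ℕ} (h : s ≤ s') {x y : Fin c → ℝ} (hxy : fl s' x = fl s' y) :
    fl s x = fl s y := by
  refine funext fun j => ?_
  have h1 : ⌊(2 : ℝ) ^ s' * x j⌋ = ⌊(2 : ℝ) ^ s' * y j⌋ := congrFun hxy j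
  change ⌊(2 : ℝ) ^ s * x j⌋ = ⌊(2 : ℝ) ^ s * y j⌋
  have h2 : ∀ z : ℝ, (2 : ℝ) ^ s * z = (2 ^ s' * z) / ((2 ^ (s' - s) : ℕ) : ℝ) := by
    intro z
    have h3 : (2 : ℝ) ^ s' = 2 ^ s * 2 ^ (s' - s) := by
      rw [← pow_add]
      congr 1
      omega
    rw [h3]
    push_cast
    field_simp
  rw [h2, h2, Int.floor_div_natCast, Int.floor_div_natCast, h1]

/-- The entropy of the digits as a sum over the blocks. -/
theorem tele {p : Ω → ℝ} (hp : IsLaw p) (x : Ω → Fin c → ℝ) (V : Ω → T) (m b : ℕ) :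
    CH p (fun ω => fl (m * b) (x ω)) (fun ω => (fl 0 (x ω), V ω)) =
      ∑ k ∈ Finset.range b, CH p (fun ω => fl (m * k + m) (x ω))
        (fun ω => (fl (m * k) (x ω), V ω)) := by
  have hp0 := hp.nonneg
  induction b with
  | zero =>
    rw [Finset.range_zero, Finset.sum_empty, Nat.mul_zero]
    refine CH_eq_zero hp0 fun ω ω' _ _ hh => ?_
    exact (Prod.ext_iff.1 hh).1
  | succ b ih =>
    rw [Finset.sum_range_succ, ← ih]
    have e1 : CH p (fun ω => fl (m * (b + 1)) (x ω)) (fun ω => (fl 0 (x ω), V ω)) =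
        CH p (fun ω => (fl (m * b + m) (x ω), fl (m * b) (x ω)))
          (fun ω => (fl 0 (x ω), V ω)) := by
      refine CH_congr hp0 ?_ ?_ (fun _ _ _ _ h => h) (fun _ _ _ _ h => h)
      · intro ω ω' _ _ hh
        have h1 : fl (m * (b + 1)) (x ω) = fl (m * (b + 1)) (x ω') := (Prod.ext_iff.1 hh).1
        refine Prod.ext ?_ ?_
        · exact fl_det (le_of_eq (by ring)) h1
        · exact fl_det (Nat.mul_le_mul_left _ (Nat.le_succ _)) h1
      · intro ω ω' _ _ hh
        have h1 : fl (m * b + m) (x ω) = fl (m * b + m) (x ω') :=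
          (Prod.ext_iff.1 (Prod.ext_iff.1 hh).1).1
        exact fl_det (le_of_eq (by ring)) h1
    rw [e1, CH_chain hp0]
    congr 1
    refine CH_congr hp0 (fun _ _ _ _ h => (Prod.ext_iff.1 h).1)
      (fun _ _ _ _ h => (Prod.ext_iff.1 h).1) ?_ ?_
    · intro ω ω' _ _ hh
      simp only [Prod.mk.injEq] at hh ⊢
      exact ⟨hh.1, hh.2.2⟩
    · intro ω ω' _ _ hh
      simp only [Prod.mk.injEq] at hh ⊢
      exact ⟨hh.1, fl_det (Nat.zero_le _) hh.1, hh.2⟩

/-- The entropy of the first digits and of the rounded basis. -/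
noncomputable def ini (c : ℕ) (K : ℝ) (m : ℕ) : ℝ :=
  c * Real.log 7 + (c * c : ℕ) * Real.log (2 * (2 ^ m * (2 * K) + 1) + 1)

theorem ini_le {p : Ω → ℝ} (hp : IsLaw p) {x : Ω → Fin c → ℝ} {e : Ω → Fin c → Fin c → ℝ}
    {K : ℝ} (hx : ∀ ω, 0 < p ω → ∀ j, |x ω j| ≤ 1) (he : ∀ ω, 0 < p ω → ∀ i j, |e ω i j| ≤ K)
    (m : ℕ) (W : Ω → T) :
    CH p (fun ω => (fl 0 (x ω), rdc m e ω)) W ≤ ini c K m := by
  have hp0 := hp.nonneg
  have h1 := CH_subadd hp0 (fun ω => fl 0 (x ω)) (rdc m e) W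
  have h2 : CH p (fun ω => fl 0 (x ω)) W ≤ c * Real.log 7 := by
    have h3 := CH_vecc (L := 3) hp (fun ω => fl 0 (x ω)) W ?_
    · refine h3.trans (le_of_eq ?_)
      norm_num
    · intro ω ω' h0 h0' _ k
      have e1 : (3 : ℝ) = 2 + 1 := by norm_num
      rw [e1]
      refine floor_two ?_
      change |(2 : ℝ) ^ 0 * x ω k - 2 ^ 0 * x ω' k| ≤ 2
      rw [pow_zero, one_mul, one_mul]
      have h4 := abs_sub (x ω k) (x ω' k)
      have h5 := hx ω h0 k
      have h6 := hx ω' h0' k
      linarith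
  have h3 : CH p (rdc m e) W ≤ (c * c : ℕ) * Real.log (2 * (2 ^ m * (2 * K) + 1) + 1) := by
    have h4 : CH p (rdc m e) W ≤ CH p (fun ω (k : Fin (c * c)) =>
        rdc m e ω (finProdFinEquiv.symm k).1 (finProdFinEquiv.symm k).2) W := by
      refine CH_mono_left hp0 fun ω ω' _ _ hh => ?_
      refine funext fun i => funext fun j => ?_
      have h5 := congrFun (Prod.ext_iff.1 hh).1 (finProdFinEquiv (i, j))
      simp only [Equiv.symm_apply_apply] at h5
      exact h5
    refine h4.trans (CH_vecc hp _ _ fun ω ω' h0 h0' _ k => ?_)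
    refine floor_two ?_
    rw [← mul_sub, abs_mul, abs_of_pos (by positivity : (0 : ℝ) < 2 ^ m)]
    refine mul_le_mul_of_nonneg_left ?_ (by positivity)
    refine (abs_sub _ _).trans ?_
    have h5 := he ω h0 (finProdFinEquiv.symm k).1 (finProdFinEquiv.symm k).2
    have h6 := he ω' h0' (finProdFinEquiv.symm k).1 (finProdFinEquiv.symm k).2
    linarith
  unfold ini
  linarith

/-- **Multilinear Kakeya in entropy form.** -/
theorem mk {p : Ω → ℝ} (hp : IsLaw p) {x : Ω → Fin c → ℝ} {e d : Ω → Fin c → Fin c → ℝ}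
    {K B : ℝ} {R m b : ℕ} (hR : R = m * b) (hB : 0 ≤ B)
    (hx : ∀ ω, 0 < p ω → ∀ j, |x ω j| ≤ 1)
    (hinv : ∀ ω, 0 < p ω → ∀ (v : Fin c → ℝ) (j : Fin c),
      v j = ∑ i, d ω i j * ∑ k, e ω i k * v k)
    (hd : ∀ ω, 0 < p ω → ∀ i j, |d ω i j| ≤ 1) (he : ∀ ω, 0 < p ω → ∀ i j, |e ω i j| ≤ K)
    (g : Fin c → Fin r) {Λ : Fin r → Type} (Lam : ∀ a, Ω → Λ a) (W : Ω → κ)
    (hl : ∀ a ω ω', 0 < p ω → 0 < p ω' → Lam a ω = Lam a ω' → W ω = W ω' → ∀ k, g k ≠ a →
      |∑ j, e ω k j * (x ω j - x ω' j)| ≤ B / 2 ^ R) :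
    ∑ a, CH p (fun ω => fl R (x ω)) (fun ω => (Lam a ω, W ω)) ≤
      CH p (fun ω => fl R (x ω)) W + (b * loss c r K B + r * ini c K m) := by
  have hp0 := hp.nonneg
  -- the world without label
  have a1 : ∑ k ∈ Finset.range b, CH p (fun ω => fl (m * k + m) (x ω))
      (fun ω => ((fl (m * k) (x ω), rdc m e ω), W ω)) ≤ CH p (fun ω => fl R (x ω)) W := by
    have h1 := tele hp x (fun ω => (rdc m e ω, W ω)) m b
    have h2 : CH p (fun ω => fl R (x ω)) (fun ω => (fl 0 (x ω), (rdc m e ω, W ω))) ≤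
        CH p (fun ω => fl R (x ω)) W := by
      refine CH_mono_cond hp0 fun ω ω' _ _ hh => ?_
      simp only [Prod.mk.injEq] at hh
      exact hh.2.2
    rw [hR] at h2 ⊢
    rw [h1] at h2
    refine le_trans (le_of_eq ?_) h2
    refine Finset.sum_congr rfl fun k _ => ?_
    refine CH_congr hp0 (fun _ _ _ _ h => (Prod.ext_iff.1 h).1)
      (fun _ _ _ _ h => (Prod.ext_iff.1 h).1) ?_ ?_
    · intro ω ω' _ _ hh
      simp only [Prod.mk.injEq] at hh ⊢
      tauto
    · intro ω ω' _ _ hh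
      simp only [Prod.mk.injEq] at hh ⊢
      tauto
  -- the world with a label
  have a2 : ∀ a, CH p (fun ω => fl R (x ω)) (fun ω => (Lam a ω, W ω)) ≤ ini c K m +
      ∑ k ∈ Finset.range b, CH p (fun ω => fl (m * k + m) (x ω))
        (fun ω => ((fl (m * k) (x ω), rdc m e ω), (Lam a ω, W ω))) := by
    intro a
    have h0 := ini_le hp hx he m (fun ω => (Lam a ω, W ω))
    have h1 := tele hp x (fun ω => (rdc m e ω, (Lam a ω, W ω))) m b
    have h2 := CH_le_add hp0 (fun ω => fl R (x ω)) (fun ω => (fl 0 (x ω), rdc m e ω))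
      (fun ω => (Lam a ω, W ω))
    have h3 : CH p (fun ω => fl R (x ω))
        (fun ω => ((fl 0 (x ω), rdc m e ω), (Lam a ω, W ω))) =
        CH p (fun ω => fl (m * b) (x ω))
          (fun ω => (fl 0 (x ω), (rdc m e ω, (Lam a ω, W ω)))) := by
      rw [hR]
      refine CH_congr hp0 (fun _ _ _ _ h => (Prod.ext_iff.1 h).1)
        (fun _ _ _ _ h => (Prod.ext_iff.1 h).1) ?_ ?_
      · intro ω ω' _ _ hh
        simp only [Prod.mk.injEq] at hh ⊢
        tauto
      · intro ω ω' _ _ hh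
        simp only [Prod.mk.injEq] at hh ⊢
        tauto
    have h4 : ∑ k ∈ Finset.range b, CH p (fun ω => fl (m * k + m) (x ω))
        (fun ω => (fl (m * k) (x ω), (rdc m e ω, (Lam a ω, W ω)))) =
        ∑ k ∈ Finset.range b, CH p (fun ω => fl (m * k + m) (x ω))
        (fun ω => ((fl (m * k) (x ω), rdc m e ω), (Lam a ω, W ω))) := by
      refine Finset.sum_congr rfl fun k _ => ?_
      refine CH_congr hp0 (fun _ _ _ _ h => (Prod.ext_iff.1 h).1)
        (fun _ _ _ _ h => (Prod.ext_iff.1 h).1) ?_ ?_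
      · intro ω ω' _ _ hh
        simp only [Prod.mk.injEq] at hh ⊢
        tauto
      · intro ω ω' _ _ hh
        simp only [Prod.mk.injEq] at hh ⊢
        tauto
    rw [h3, h1, h4] at h2
    linarith
  -- the blocks
  have a3 : ∑ a, ∑ k ∈ Finset.range b, CH p (fun ω => fl (m * k + m) (x ω))
        (fun ω => ((fl (m * k) (x ω), rdc m e ω), (Lam a ω, W ω))) ≤
      ∑ k ∈ Finset.range b, (CH p (fun ω => fl (m * k + m) (x ω))
      (fun ω => ((fl (m * k) (x ω), rdc m e ω), W ω)) + loss c r K B) := by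
    rw [Finset.sum_comm]
    refine Finset.sum_le_sum fun k hk => ?_
    refine block hp (R := R) hB hinv hd he g Lam W hl ?_
    rw [hR]
    have h1 := Finset.mem_range.1 hk
    calc m * k + m = m * (k + 1) := by ring
      _ ≤ m * b := Nat.mul_le_mul_left _ h1
  rw [Finset.sum_add_distrib, Finset.sum_const, Finset.card_range, nsmul_eq_mul] at a3
  have a4 := Finset.sum_le_sum fun a (_ : a ∈ (univ : Finset (Fin r))) => a2 a
  rw [Finset.sum_add_distrib, Finset.sum_const, Finset.card_univ, Fintype.card_fin,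
    nsmul_eq_mul] at a4
  linarith

end Pool.MKE
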